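import Pool.Agent.helper34.HC.SpecRG

/-!
# HC, module RG21: pull backs of theta forms by elements of the unitary group are theta forms
-/

open scoped BigOperators ComplexConjugate Matrix Topology
open NumberField

namespace HC.HT

/-- the action on the ball does not change under scalars -/
theorem RG21_mob {a : ℕ} (c : ℂ) (hc : c ≠ 0) (G : Matrix (Fin (a + 1)) (Fin (a + 1)) ℂ) :
    mob (c • G) = mob G := by
  funext z i
  unfold mob jf
  rw [Matrix.smul_mulVec, Pi.smul_apply, Pi.smul_apply, smul_eq_mul, smul_eq_mul,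
    mul_div_mul_left _ _ hc]

/-- a scalar of absolute value one which is not in a finite set -/
theorem RG21_scalar {E : Type} [Field E] [NumberField E] [IsCMField E] (eta : E)
    (h1 : star eta = -eta) (h2 : eta ≠ 0) (q : Polynomial E) (hq : q ≠ 0) :
    ∃ x : E, star x * x = 1 ∧ q.eval x ≠ 0 := by
  have hcz : ∀ n : ℕ, (1 : E) - n * eta ≠ 0 := by
    intro n h
    have h3 := congrArg star h
    rw [star_sub, star_one, star_mul', star_natCast, h1, star_zero] at h3
    have h4 : (2 : E) = 0 := by linear_combination h + h3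
    exact two_ne_zero h4
  have hcp : ∀ n : ℕ, (1 : E) + n * eta ≠ 0 := by
    intro n h
    have h3 := congrArg star h
    rw [star_add, star_one, star_mul', star_natCast, h1, star_zero] at h3
    have h4 : (2 : E) = 0 := by linear_combination h + h3
    exact two_ne_zero h4
  set x : ℕ → E := fun n => (1 + n * eta) / (1 - n * eta) with hx
  have hinj : Function.Injective x := by
    intro n m hnm
    simp only [hx] at hnm
    rw [div_eq_div_iff (hcz n) (hcz m)] at hnm
    have h3 : (2 : E) * eta * ((n : E) - m) = 0 := by linear_combination hnm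
    have h4 : ((n : E) - m) = 0 := by
      rcases mul_eq_zero.1 h3 with h | h
      · exact absurd h (mul_ne_zero two_ne_zero h2)
      · exact h
    exact_mod_cast sub_eq_zero.1 h4
  have hstar : ∀ n, star (x n) * x n = 1 := by
    intro n
    simp only [hx]
    rw [star_div₀, star_add, star_sub, star_one, star_mul', star_natCast, h1]
    have h3 : (1 : E) + n * -eta = 1 - n * eta := by ring
    have h4 : (1 : E) - n * -eta = 1 + n * eta := by ring
    rw [h3, h4]
    have := hcz n
    have := hcp n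
    field_simp
  by_contra hcon
  push Not at hcon
  apply hq
  apply Polynomial.eq_zero_of_infinite_isRoot
  refine Set.Infinite.mono ?_ (Set.infinite_range_of_injective hinj)
  rintro _ ⟨n, rfl⟩
  exact hcon (x n) (hstar n)

theorem RG21 (h1 : RG1_stmt) (h3 : RG3_stmt) (h4 : FA4_stmt) (h6 : RG6_stmt) (h19 : RG19_stmt)
    (h20 : RG20_stmt) : RG21_stmt := by
  intro E _ _ _ iota d hyp a P eta heta hpos hrep hmem g hg Phi hPhi
  have heta0 : eta ≠ 0 := by
    rintro rfl
    simp at hpos
  have hd0 : d ≠ 0 := by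
    intro h
    have := hyp.pos
    rw [h] at this
    simp at this
  obtain ⟨hchi, huchi⟩ := (h19 E).1 d eta a hyp.real hd0 heta heta0
  -- the polynomial
  set q : Polynomial E := (1 + (Polynomial.X : Polynomial E) •
    (g : Matrix (Fin (a + 1)) (Fin (a + 1)) E).map Polynomial.C).det with hq
  have hqe : ∀ x : E, q.eval x = (1 + x • (g : Matrix (Fin (a + 1)) (Fin (a + 1)) E)).det := by
    intro x
    have h5 := RingHom.map_det (Polynomial.evalRingHom x) (1 + (Polynomial.X : Polynomial E) •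
      (g : Matrix (Fin (a + 1)) (Fin (a + 1)) E).map Polynomial.C)
    rw [Polynomial.coe_evalRingHom] at h5
    rw [hq, h5]
    congr 1
    ext i j
    by_cases hij : i = j
    · subst hij
      simp
      ring
    · simp [Matrix.one_apply_ne hij]
      ring
  have hq0 : q ≠ 0 := by
    intro h
    have h5 := hqe 0
    rw [h, Polynomial.eval_zero, zero_smul, add_zero, Matrix.det_one] at h5
    exact zero_ne_one h5
  obtain ⟨x, hx1, hx2⟩ := RG21_scalar eta heta heta0 q hq0
  have hx0 : x ≠ 0 := by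
    rintro rfl
    rw [mul_zero] at hx1
    exact zero_ne_one hx1
  rw [hqe] at hx2
  -- the element
  set s : Matrix.GeneralLinearGroup (Fin (a + 1)) E :=
    Units.map (algebraMap E (Matrix (Fin (a + 1)) (Fin (a + 1)) E)).toMonoidHom (Units.mk0 x hx0) with hs
  have hsg : ((s * g : Matrix.GeneralLinearGroup (Fin (a + 1)) E) :
      Matrix (Fin (a + 1)) (Fin (a + 1)) E) = x • (g : Matrix (Fin (a + 1)) (Fin (a + 1)) E) := by
    rw [Units.val_mul, hs]
    show (algebraMap E (Matrix (Fin (a + 1)) (Fin (a + 1)) E)) x * _ = _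
    rw [Algebra.algebraMap_eq_smul_one, smul_mul_assoc, one_mul]
  set g1 : Matrix.GeneralLinearGroup (Fin (a + 1)) E := s * g with hg1
  have hg1U : g1 ∈ UE a d := by
    show (g1 : Matrix (Fin (a + 1)) (Fin (a + 1)) E)ᴴ * hm a d *
      (g1 : Matrix (Fin (a + 1)) (Fin (a + 1)) E) = hm a d
    have hg' : (g : Matrix (Fin (a + 1)) (Fin (a + 1)) E)ᴴ * hm a d *
      (g : Matrix (Fin (a + 1)) (Fin (a + 1)) E) = hm a d := hg
    rw [hsg, Matrix.conjTranspose_smul, Matrix.smul_mul, Matrix.smul_mul, Matrix.mul_smul,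
      smul_smul, hg', hx1, one_smul]
  have hinvU : g1⁻¹ ∈ UE a d := (UE a d).inv_mem hg1U
  have hdet : IsUnit (1 + ((g1⁻¹ : Matrix.GeneralLinearGroup (Fin (a + 1)) E) :
      Matrix (Fin (a + 1)) (Fin (a + 1)) E)).det := by
    have h5 : (1 + ((g1⁻¹ : Matrix.GeneralLinearGroup (Fin (a + 1)) E) :
        Matrix (Fin (a + 1)) (Fin (a + 1)) E)) =
        ((g1⁻¹ : Matrix.GeneralLinearGroup (Fin (a + 1)) E) :
          Matrix (Fin (a + 1)) (Fin (a + 1)) E) *
          (1 + (g1 : Matrix (Fin (a + 1)) (Fin (a + 1)) E)) := by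
      rw [mul_add, mul_one, ← Units.val_mul, inv_mul_cancel, Units.val_one]
      exact add_comm _ _
    rw [h5, Matrix.det_mul]
    refine IsUnit.mul ?_ ?_
    · exact (Matrix.isUnit_iff_isUnit_det _).1 (Units.isUnit _)
    · rw [hsg]
      exact isUnit_iff_ne_zero.2 hx2
  have hS1 : IsS (Rop (chv a d eta) 0 Phi) := by
    refine (h4 E (Fin (a + 1)) (chv a d eta) hchi Phi hPhi).2.2.2.2.1 0 ?_
    rw [sub_zero, Matrix.det_one]
    exact isUnit_one
  have hS2 : IsS (Rop (chv a d eta) (cay ((g1⁻¹ : Matrix.GeneralLinearGroup (Fin (a + 1)) E) :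
      Matrix (Fin (a + 1)) (Fin (a + 1)) E)) (Rop (chv a d eta) 0 Phi)) := by
    refine (h4 E (Fin (a + 1)) (chv a d eta) hchi _ hS1).2.2.2.2.1 _ ?_
    exact ((h1 E (Fin (a + 1)) (chv a d eta) hchi).2.2.2.2.2.2.2.1 _ (huchi _ hinvU) hdet).2
  obtain ⟨r, hr0, hr⟩ := (h6 E (Fin (a + 1)) (chv a d eta) hchi).1
  have hcst : cst (chv a d eta) ≠ 0 := by
    rw [hr]
    exact_mod_cast hr0.ne'
  set c : ℂ := (cst (chv a d eta))⁻¹ * chi (tyOf eta) (Dh ((g1⁻¹ : Matrix.GeneralLinearGroup
    (Fin (a + 1)) E) : Matrix (Fin (a + 1)) (Fin (a + 1)) E)) with hc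
  refine ⟨fun v => c * Rop (chv a d eta) (cay ((g1⁻¹ : Matrix.GeneralLinearGroup (Fin (a + 1)) E) :
      Matrix (Fin (a + 1)) (Fin (a + 1)) E)) (Rop (chv a d eta) 0 Phi) v, ?_, ?_⟩
  · obtain ⟨m, hm1, hm2, hm3⟩ := hS2
    refine ⟨m, hm1, fun v hv => hm2 v (right_ne_zero_of_mul hv), fun v w hw => ?_⟩
    show c * _ = c * _
    rw [hm3 v w hw]
  · intro z hz u
    rw [((h3 E).2 iota d hyp a P eta heta hpos hrep hmem z hz c _ _ hS2 hS2).2]
    have h5 := h20 E iota d hyp a P eta heta hpos hrep hmem g1⁻¹ hinvU hdet z hz Phi hPhi u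
    rw [inv_inv] at h5
    have hmob : mob (gm iota g1) = mob (gm iota g) := by
      have h6 : gm iota g1 = iota x • gm iota g := by
        unfold gm
        rw [hsg]
        ext i j
        simp
      rw [h6]
      exact RG21_mob _ ((map_ne_zero iota).2 hx0) _
    have hpull : pull (gm iota g1) (om P iota d eta Phi) z u =
        pull (gm iota g) (om P iota d eta Phi) z u := by
      unfold pull
      rw [hmob]
    rw [hpull] at h5
    have h7 : (fun i => c * om P iota d eta (Rop (chv a d eta)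
        (cay ((g1⁻¹ : Matrix.GeneralLinearGroup (Fin (a + 1)) E) :
          Matrix (Fin (a + 1)) (Fin (a + 1)) E)) (Rop (chv a d eta) 0 Phi)) z i) ⬝ᵥ u =
        c * (om P iota d eta (Rop (chv a d eta)
        (cay ((g1⁻¹ : Matrix.GeneralLinearGroup (Fin (a + 1)) E) :
          Matrix (Fin (a + 1)) (Fin (a + 1)) E)) (Rop (chv a d eta) 0 Phi)) z ⬝ᵥ u) := by
      simp only [dotProduct, Finset.mul_sum, mul_assoc]
    rw [h7, hc, mul_assoc, ← h5, ← mul_assoc, inv_mul_cancel₀ hcst, one_mul]

end HC.HT
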